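import Mathlib

/-!
# Linear compactness of artinian modules

A filtered system of modules with artinian submodules, mapped onto each other by the transition maps, has a compatible
family through every given element.
-/

namespace Pool.Agent.Helper24.LC

section Smallest

variable {R : Type*} [Ring R] {M : Type*} [AddCommGroup M] [Module R M]

/-- A nonempty downward directed set of nonempty affine subsets of an artinian submodule has a smallest element. -/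
lemma exists_smallest (J : Submodule R M) (hJ : IsArtinian R J) (S : Set (AffineSubspace R M)) (hS : S.Nonempty)
    (hne : ∀ A ∈ S, (A : Set M).Nonempty) (hle : ∀ A ∈ S, ∀ x ∈ A, x ∈ J)
    (hdir : ∀ A ∈ S, ∀ B ∈ S, ∃ C ∈ S, C ≤ A ∧ C ≤ B) : ∃ A ∈ S, ∀ B ∈ S, A ≤ B := by
  have hdle : ∀ A ∈ S, A.direction ≤ J := by
    intro A hA v hv
    obtain ⟨p, hp⟩ := hne A hA
    have h1 : v +ᵥ p ∈ A := AffineSubspace.vadd_mem_of_mem_direction hv hp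
    have h2 := hle A hA _ h1
    have h3 := hle A hA _ hp
    rw [vadd_eq_add] at h2
    have h4 := J.sub_mem h2 h3
    rwa [add_sub_cancel_right] at h4
  let μ : AffineSubspace R M → Submodule R J := fun A => A.direction.comap J.subtype
  have hwf : WellFounded (fun D E : Submodule R J => D < E) := IsWellFounded.wf
  obtain ⟨D, ⟨A, hA, hAD⟩, hmin⟩ := hwf.has_min (μ '' S) (hS.image μ)
  refine ⟨A, hA, fun B hB => ?_⟩
  obtain ⟨C, hC, hCA, hCB⟩ := hdir A hA B hB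
  have hd : C.direction ≤ A.direction := AffineSubspace.direction_le hCA
  have h1 : μ C ≤ μ A := Submodule.comap_mono hd
  have h2 : μ C = μ A := by
    rcases h1.lt_or_eq with h | h
    · exact absurd (hAD ▸ h) (hmin (μ C) ⟨C, hC, rfl⟩)
    · exact h
  have h3 : A.direction ≤ C.direction := by
    intro v hv
    have hvJ : v ∈ J := hdle A hA hv
    have h4 : (⟨v, hvJ⟩ : J) ∈ μ A := hv
    rw [← h2] at h4
    exact h4
  have h5 : C = A := AffineSubspace.eq_of_direction_eq_of_nonempty_of_le (le_antisymm hd h3) (hne C hC) hCA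
  exact h5 ▸ hCB

end Smallest

section Family

variable {R : Type*} [Ring R] {Λ : Type*} (Mor : Λ → Λ → Type*) {M : Λ → Type*}
  [∀ σ, AddCommGroup (M σ)] [∀ σ, Module R (M σ)] (t : ∀ σ τ : Λ, Mor σ τ → (M τ →ₗ[R] M σ))
  (J : ∀ σ, Submodule R (M σ))

/-- families of nonempty affine subsets, compatible with the transition maps -/
structure Fam (K : ∀ σ, AffineSubspace R (M σ)) : Prop where
  nonempty : ∀ σ, (K σ : Set (M σ)).Nonempty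
  le : ∀ σ, ∀ x ∈ K σ, x ∈ J σ
  map : ∀ {σ τ : Λ} (k : Mor σ τ), ∀ x ∈ K τ, t _ _ k x ∈ K σ

variable (hcomp : ∀ {σ τ ρ : Λ} (k : Mor σ τ) (l : Mor τ ρ), ∃ m : Mor σ ρ, t _ _ m = t _ _ k ∘ₗ t _ _ l)
  (hdir : ∀ σ τ : Λ, ∃ ρ, Nonempty (Mor σ ρ) ∧ Nonempty (Mor τ ρ))
  (heq : ∀ {σ τ : Λ} (k k' : Mor σ τ), ∃ (ρ : Λ) (l : Mor τ ρ), t _ _ k ∘ₗ t _ _ l = t _ _ k' ∘ₗ t _ _ l)
  (hart : ∀ σ, IsArtinian R (J σ))

/-- the affine subset of `M τ` attached to `k : τ → ρ`, `l : σ₁ → ρ` -/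
def piece (K : ∀ σ, AffineSubspace R (M σ)) {σ₁ : Λ} (B : AffineSubspace R (M σ₁)) {τ ρ : Λ} (k : Mor τ ρ)
    (l : Mor σ₁ ρ) : AffineSubspace R (M τ) :=
  ((B.comap (t _ _ l).toAffineMap) ⊓ K ρ).map (t _ _ k).toAffineMap

lemma mem_piece (K : ∀ σ, AffineSubspace R (M σ)) {σ₁ : Λ} (B : AffineSubspace R (M σ₁)) {τ ρ : Λ} (k : Mor τ ρ)
    (l : Mor σ₁ ρ) (x : M τ) : x ∈ piece Mor t K B k l ↔ ∃ y : M ρ, t _ _ l y ∈ B ∧ y ∈ K ρ ∧ t _ _ k y = x := by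
  rw [piece, AffineSubspace.mem_map]
  constructor
  · rintro ⟨y, hy, rfl⟩
    rw [AffineSubspace.mem_inf_iff, AffineSubspace.mem_comap] at hy
    exact ⟨y, hy.1, hy.2, rfl⟩
  · rintro ⟨y, h1, h2, rfl⟩
    refine ⟨y, ?_, rfl⟩
    rw [AffineSubspace.mem_inf_iff, AffineSubspace.mem_comap]
    exact ⟨h1, h2⟩

include hcomp hdir heq hart in
/-- making a family smaller -/
lemma exists_smaller (K : ∀ σ, AffineSubspace R (M σ)) (hK : Fam Mor t J K) {σ₁ : Λ} (B : AffineSubspace R (M σ₁))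
    (hB : ∀ {ρ : Λ} (l : Mor σ₁ ρ), ∃ y ∈ K ρ, t _ _ l y ∈ B) :
    ∃ K' : ∀ σ, AffineSubspace R (M σ), Fam Mor t J K' ∧ K' ≤ K ∧ K' σ₁ ≤ B ∧
      ∀ {τ ρ : Λ} (k : Mor τ ρ), ∀ x ∈ K' τ, ∃ y ∈ K ρ, t _ _ k y = x := by
  have hcomp' : ∀ {σ τ ρ : Λ} (k : Mor σ τ) (l : Mor τ ρ), ∃ m : Mor σ ρ, ∀ y, t _ _ m y = t _ _ k (t _ _ l y) := by
    intro σ τ ρ k l
    obtain ⟨m, hm⟩ := hcomp k l
    exact ⟨m, fun y => by rw [hm]; rfl⟩
  have heq' : ∀ {σ τ : Λ} (k k' : Mor σ τ), ∃ (ρ : Λ) (l : Mor τ ρ), ∀ y, t _ _ k (t _ _ l y) = t _ _ k' (t _ _ l y) := by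
    intro σ τ k k'
    obtain ⟨ρ, l, hl⟩ := heq k k'
    exact ⟨ρ, l, fun y => LinearMap.congr_fun hl y⟩
  have main : ∀ τ : Λ, ∃ A : AffineSubspace R (M τ),
      (∃ (ρ : Λ) (k : Mor τ ρ) (l : Mor σ₁ ρ), A = piece Mor t K B k l) ∧
      ∀ (ρ : Λ) (k : Mor τ ρ) (l : Mor σ₁ ρ), A ≤ piece Mor t K B k l := by
    intro τ
    obtain ⟨A, hA, hmin⟩ := exists_smallest (J τ) (hart τ)
      {A | ∃ (ρ : Λ) (k : Mor τ ρ) (l : Mor σ₁ ρ), A = piece Mor t K B k l} (by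
        obtain ⟨ρ, ⟨k⟩, ⟨l⟩⟩ := hdir τ σ₁
        exact ⟨_, ρ, k, l, rfl⟩) (by
        rintro A ⟨ρ, k, l, rfl⟩
        obtain ⟨y, hy, hyB⟩ := hB l
        exact ⟨t _ _ k y, (mem_piece Mor t K B k l _).2 ⟨y, hyB, hy, rfl⟩⟩) (by
        rintro A ⟨ρ, k, l, rfl⟩ x hx
        obtain ⟨y, hyB, hy, rfl⟩ := (mem_piece Mor t K B k l _).1 hx
        exact hK.le _ _ (hK.map k y hy)) (by
        rintro A ⟨ρ, k, l, rfl⟩ A' ⟨ρ', k', l', rfl⟩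
        obtain ⟨ρ₁, ⟨m⟩, ⟨m'⟩⟩ := hdir ρ ρ'
        obtain ⟨k₁, hk₁⟩ := hcomp' k m
        obtain ⟨k₂, hk₂⟩ := hcomp' k' m'
        obtain ⟨ρ₂, n, hn⟩ := heq' k₁ k₂
        obtain ⟨l₁, hl₁⟩ := hcomp' l m
        obtain ⟨l₂, hl₂⟩ := hcomp' l' m'
        obtain ⟨l₃, hl₃⟩ := hcomp' l₁ n
        obtain ⟨l₄, hl₄⟩ := hcomp' l₂ n
        obtain ⟨ρ₃, p, hp⟩ := heq' l₃ l₄
        obtain ⟨k₃, hk₃⟩ := hcomp' k₁ n
        obtain ⟨k₄, hk₄⟩ := hcomp' k₃ p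
        obtain ⟨l₅, hl₅⟩ := hcomp' l₃ p
        refine ⟨piece Mor t K B k₄ l₅, ⟨ρ₃, k₄, l₅, rfl⟩, ?_, ?_⟩
        · intro x hx
          obtain ⟨y, hyB, hy, rfl⟩ := (mem_piece Mor t K B k₄ l₅ _).1 hx
          refine (mem_piece Mor t K B k l _).2 ⟨t _ _ m (t _ _ n (t _ _ p y)), ?_, hK.map m _ (hK.map n _ (hK.map p _ hy)), ?_⟩
          · rw [← hl₁, ← hl₃, ← hl₅]
            exact hyB
          · rw [← hk₁, ← hk₃, ← hk₄]
        · intro x hx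
          obtain ⟨y, hyB, hy, rfl⟩ := (mem_piece Mor t K B k₄ l₅ _).1 hx
          refine (mem_piece Mor t K B k' l' _).2 ⟨t _ _ m' (t _ _ n (t _ _ p y)), ?_, hK.map m' _ (hK.map n _ (hK.map p _ hy)), ?_⟩
          · rw [← hl₂, ← hl₄, ← hp, ← hl₅]
            exact hyB
          · rw [← hk₂, ← hn, ← hk₃, ← hk₄])
    exact ⟨A, hA, fun ρ k l => hmin _ ⟨ρ, k, l, rfl⟩⟩
  choose K' hK' hK'min using main
  refine ⟨K', ⟨?_, ?_, ?_⟩, ?_, ?_, ?_⟩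
  · intro τ
    obtain ⟨ρ, k, l, h⟩ := hK' τ
    obtain ⟨y, hy, hyB⟩ := hB l
    rw [h]
    exact ⟨t _ _ k y, (mem_piece Mor t K B k l _).2 ⟨y, hyB, hy, rfl⟩⟩
  · intro τ x hx
    obtain ⟨ρ, k, l, h⟩ := hK' τ
    rw [h] at hx
    obtain ⟨y, hyB, hy, rfl⟩ := (mem_piece Mor t K B k l _).1 hx
    exact hK.le _ _ (hK.map k y hy)
  · intro σ τ k₀ x hx
    obtain ⟨ρ, k, l, h⟩ := hK' σ
    rw [h]
    obtain ⟨ρ₁, ⟨m⟩, ⟨k'⟩⟩ := hdir ρ τ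
    obtain ⟨k₁, hk₁⟩ := hcomp' k m
    obtain ⟨k₂, hk₂⟩ := hcomp' k₀ k'
    obtain ⟨ρ₂, n, hn⟩ := heq' k₁ k₂
    obtain ⟨k₃, hk₃⟩ := hcomp' k' n
    obtain ⟨l₁, hl₁⟩ := hcomp' l m
    obtain ⟨l₂, hl₂⟩ := hcomp' l₁ n
    obtain ⟨y, hyB, hy, rfl⟩ := (mem_piece Mor t K B k₃ l₂ _).1 (hK'min τ ρ₂ k₃ l₂ hx)
    refine (mem_piece Mor t K B k l _).2 ⟨t _ _ m (t _ _ n y), ?_, hK.map m _ (hK.map n _ hy), ?_⟩
    · rw [← hl₁, ← hl₂]
      exact hyB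
    · rw [← hk₁, hn, hk₂, hk₃]
  · intro τ x hx
    obtain ⟨ρ, k, l, h⟩ := hK' τ
    rw [h] at hx
    obtain ⟨y, hyB, hy, rfl⟩ := (mem_piece Mor t K B k l _).1 hx
    exact hK.map k y hy
  · intro x hx
    obtain ⟨ρ, ⟨k⟩, ⟨l⟩⟩ := hdir σ₁ σ₁
    obtain ⟨ρ₁, n, hn⟩ := heq' k l
    obtain ⟨k₁, hk₁⟩ := hcomp' k n
    obtain ⟨l₁, hl₁⟩ := hcomp' l n
    obtain ⟨y, hyB, hy, rfl⟩ := (mem_piece Mor t K B k₁ l₁ _).1 (hK'min σ₁ ρ₁ k₁ l₁ hx)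
    rw [hk₁, hn, ← hl₁]
    exact hyB
  · intro τ ρ k x hx
    obtain ⟨ρ₁, ⟨m⟩, ⟨l⟩⟩ := hdir ρ σ₁
    obtain ⟨k₁, hk₁⟩ := hcomp' k m
    obtain ⟨y, hyB, hy, rfl⟩ := (mem_piece Mor t K B k₁ l _).1 (hK'min τ ρ₁ k₁ l hx)
    exact ⟨t _ _ m y, hK.map m _ hy, (hk₁ y).symm⟩

include hart in
/-- minimal families below a family -/
lemma exists_minimal (K : ∀ σ, AffineSubspace R (M σ)) (hK : Fam Mor t J K) :
    ∃ K' : ∀ σ, AffineSubspace R (M σ), Fam Mor t J K' ∧ K' ≤ K ∧ ∀ K'', Fam Mor t J K'' → K'' ≤ K' → K'' = K' := by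
  let S : Set (∀ σ, AffineSubspace R (M σ))ᵒᵈ := {K | Fam Mor t J (OrderDual.ofDual K)}
  obtain ⟨m, hm1, hm2⟩ := zorn_le_nonempty₀ S (by
    intro c hc hchain y hy
    have main : ∀ τ : Λ, ∃ A : AffineSubspace R (M τ), (∃ L ∈ c, A = OrderDual.ofDual L τ) ∧
        ∀ L ∈ c, A ≤ OrderDual.ofDual L τ := by
      intro τ
      obtain ⟨A, hA, hmin⟩ := exists_smallest (J τ) (hart τ) {A | ∃ L ∈ c, A = OrderDual.ofDual L τ}
        ⟨_, y, hy, rfl⟩ (by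
          rintro A ⟨L, hL, rfl⟩
          exact (hc hL).nonempty τ) (by
          rintro A ⟨L, hL, rfl⟩ x hx
          exact (hc hL).le τ x hx) (by
          rintro A ⟨L, hL, rfl⟩ A' ⟨L', hL', rfl⟩
          rcases hchain.total hL hL' with h | h
          · exact ⟨_, ⟨L', hL', rfl⟩, OrderDual.ofDual_le_ofDual.2 h τ, le_refl _⟩
          · exact ⟨_, ⟨L, hL, rfl⟩, le_refl _, OrderDual.ofDual_le_ofDual.2 h τ⟩)
      exact ⟨A, hA, fun L hL => hmin _ ⟨L, hL, rfl⟩⟩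
    choose K' hK' hK'min using main
    refine ⟨OrderDual.toDual K', ⟨?_, ?_, ?_⟩, ?_⟩
    · intro τ
      obtain ⟨L, hL, h⟩ := hK' τ
      change (K' τ : Set (M τ)).Nonempty
      rw [h]
      exact (hc hL).nonempty τ
    · intro τ x hx
      obtain ⟨L, hL, h⟩ := hK' τ
      change x ∈ K' τ at hx
      rw [h] at hx
      exact (hc hL).le τ x hx
    · intro σ τ k x hx
      obtain ⟨L, hL, h⟩ := hK' σ
      change t _ _ k x ∈ K' σ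
      rw [h]
      exact (hc hL).map k x (hK'min τ L hL hx)
    · intro L hL
      exact OrderDual.ofDual_le_ofDual.1 fun τ => hK'min τ L hL) (OrderDual.toDual K) hK
  refine ⟨OrderDual.ofDual m, hm2.1, hm1, fun K'' h1 h2 => ?_⟩
  exact le_antisymm h2 (hm2.2 (y := OrderDual.toDual K'') h1 h2)

end Family

/-- PACKET LC: linear compactness of artinian modules -/
theorem linear_compactness {R : Type*} [Ring R] {Λ : Type*} (Mor : Λ → Λ → Type*) {M : Λ → Type*}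
    [∀ σ, AddCommGroup (M σ)] [∀ σ, Module R (M σ)] (t : ∀ {σ τ : Λ}, Mor σ τ → (M τ →ₗ[R] M σ))
    (hid : ∀ σ, ∃ k : Mor σ σ, t k = LinearMap.id)
    (hcomp : ∀ {σ τ ρ : Λ} (k : Mor σ τ) (l : Mor τ ρ), ∃ m : Mor σ ρ, t m = t k ∘ₗ t l)
    (hdir : ∀ σ τ : Λ, ∃ ρ, Nonempty (Mor σ ρ) ∧ Nonempty (Mor τ ρ))
    (heq : ∀ {σ τ : Λ} (k k' : Mor σ τ), ∃ (ρ : Λ) (l : Mor τ ρ), t k ∘ₗ t l = t k' ∘ₗ t l)
    (J : ∀ σ, Submodule R (M σ)) (hart : ∀ σ, IsArtinian R (J σ))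
    (hsurj : ∀ {σ τ : Λ} (k : Mor σ τ), (J τ).map (t k) = J σ)
    (σ₀ : Λ) (a : M σ₀) (ha : a ∈ J σ₀) :
    ∃ v : ∀ σ, M σ, (∀ σ, v σ ∈ J σ) ∧ (∀ {σ τ : Λ} (k : Mor σ τ), t k (v τ) = v σ) ∧ v σ₀ = a := by
  have hsing : ∀ {σ : Λ} (b x : M σ), x ∈ AffineSubspace.mk' b (⊥ : Submodule R (M σ)) ↔ x = b := by
    intro σ b x
    rw [AffineSubspace.mem_mk', Submodule.mem_bot, vsub_eq_sub, sub_eq_zero]
  have h0 : Fam Mor (fun _ _ k => t k) J (fun σ => (J σ).toAffineSubspace) := by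
    refine ⟨fun σ => ⟨0, Submodule.mem_toAffineSubspace.2 (J σ).zero_mem⟩, fun σ x hx =>
      Submodule.mem_toAffineSubspace.1 hx, fun {σ τ} k x hx => Submodule.mem_toAffineSubspace.2 ?_⟩
    rw [← hsurj k]
    exact Submodule.mem_map_of_mem (Submodule.mem_toAffineSubspace.1 hx)
  obtain ⟨K₁, hK₁, -, hK₁a, -⟩ := exists_smaller Mor (fun _ _ k => t k) J hcomp hdir heq hart _ h0 (AffineSubspace.mk' a ⊥) (by
    intro ρ l
    have h1 : a ∈ (J ρ).map (t l) := (hsurj l).symm ▸ ha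
    obtain ⟨y, hy, hya⟩ := h1
    exact ⟨y, Submodule.mem_toAffineSubspace.2 hy, (hsing _ _).2 hya⟩)
  obtain ⟨K, hK, hKK₁, hmin⟩ := exists_minimal Mor (fun _ _ k => t k) J hart K₁ hK₁
  -- surjective transition maps
  have hsur : ∀ {τ ρ : Λ} (k : Mor τ ρ), ∀ x ∈ K τ, ∃ y ∈ K ρ, t k y = x := by
    obtain ⟨K', hK', hle, -, hs⟩ := exists_smaller Mor (fun _ _ k => t k) J hcomp hdir heq hart K hK (K σ₀) (by
      intro ρ l
      obtain ⟨y, hy⟩ := hK.nonempty ρ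
      exact ⟨y, hy, hK.map l y hy⟩)
    have h1 := hmin K' hK' hle
    subst h1
    exact fun {τ ρ} k x hx => hs k x hx
  have huniq : ∀ {σ : Λ} (b x : M σ), b ∈ K σ → x ∈ K σ → x = b := by
    intro σ b x hb hx
    obtain ⟨K', hK', hle, hB, -⟩ := exists_smaller Mor (fun _ _ k => t k) J hcomp hdir heq hart K hK (AffineSubspace.mk' b ⊥) (by
      intro ρ l
      obtain ⟨y, hy, hyb⟩ := hsur l b hb
      exact ⟨y, hy, (hsing _ _).2 hyb⟩)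
    have h1 := hmin K' hK' hle
    subst h1
    exact (hsing _ _).1 (hB hx)
  choose v hv using hK.nonempty
  refine ⟨v, fun σ => hK.le σ _ (hv σ), fun {σ τ} k => huniq _ _ (hv σ) (hK.map k _ (hv τ)), ?_⟩
  exact (hsing _ _).1 (hK₁a (hKK₁ σ₀ (hv σ₀)))

end Pool.Agent.Helper24.LC
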