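import Mathlib

set_option autoImplicit false

/-!
Order sums of positive sequences in an ordered Banach space in which increasing order bounded
sequences have suprema.  Main result: `exists_orderSum`, a bounded operator `T` from the bounded
sequences to `X` such that `T a` is the supremum of the partial sums of `a k • x k` for `a ≥ 0`.
-/

namespace Pool.Agent.Helper24

open Filter Topology

variable {X : Type*} [NormedAddCommGroup X] [NormedSpace ℝ X] [PartialOrder X]
  [IsOrderedAddMonoid X] [PosSMulMono ℝ X]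

omit [NormedSpace ℝ X] [PosSMulMono ℝ X] in
/-- The supremum of a sum of two increasing sequences is the sum of the suprema. -/
theorem isLUB_add {p q : ℕ → X} (hp : Monotone p) (hq : Monotone q) {s t : X}
    (hs : IsLUB (Set.range p) s) (ht : IsLUB (Set.range q) t) :
    IsLUB (Set.range (fun n => p n + q n)) (s + t) := by
  constructor
  · rintro _ ⟨n, rfl⟩
    exact add_le_add (hs.1 ⟨n, rfl⟩) (ht.1 ⟨n, rfl⟩)
  · intro u hu
    have h1 : ∀ m n, p n + q m ≤ u := by
      intro m n
      calc p n + q m ≤ p (max m n) + q (max m n) :=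
            add_le_add (hp (le_max_right _ _)) (hq (le_max_left _ _))
        _ ≤ u := hu ⟨max m n, rfl⟩
    have h2 : ∀ m, s ≤ u - q m := by
      intro m
      refine hs.2 ?_
      rintro _ ⟨n, rfl⟩
      exact le_sub_iff_add_le.2 (h1 m n)
    have h3 : t ≤ u - s := by
      refine ht.2 ?_
      rintro _ ⟨m, rfl⟩
      have := h2 m
      rw [le_sub_iff_add_le] at this ⊢
      rwa [add_comm]
    rw [le_sub_iff_add_le, add_comm] at h3
    exact h3

/-- The partial sums of `a k • x k`. -/
def psum (x : ℕ → X) (a : ℕ → ℝ) (n : ℕ) : X := ∑ k ∈ Finset.range n, a k • x k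

theorem psum_mono {x : ℕ → X} (hx : ∀ k, 0 ≤ x k) {a : ℕ → ℝ} (ha : ∀ k, 0 ≤ a k) :
    Monotone (psum x a) := by
  refine monotone_nat_of_le_succ fun n => ?_
  rw [psum, psum, Finset.sum_range_succ]
  exact le_add_of_nonneg_right (smul_nonneg (ha n) (hx n))

theorem psum_le {x : ℕ → X} (hx : ∀ k, 0 ≤ x k) {a : ℕ → ℝ} {C : ℝ} (hC : 0 ≤ C)
    (haC : ∀ k, a k ≤ C) {y : X} (hy : ∀ n, ∑ k ∈ Finset.range n, x k ≤ y) (n : ℕ) :
    psum x a n ≤ C • y := by
  calc psum x a n ≤ ∑ k ∈ Finset.range n, C • x k := by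
        refine Finset.sum_le_sum fun k _ => ?_
        rw [← sub_nonneg, ← sub_smul]
        exact smul_nonneg (sub_nonneg.2 (haC k)) (hx k)
    _ = C • ∑ k ∈ Finset.range n, x k := by rw [Finset.smul_sum]
    _ ≤ C • y := smul_le_smul_of_nonneg_left (hy n) hC

theorem exists_orderSum [CompleteSpace X] (hclosed : IsClosed {x : X | 0 ≤ x})
    (hS : ∀ x : ℕ → X, Monotone x → BddAbove (Set.range x) → ∃ s, IsLUB (Set.range x) s)
    (x : ℕ → X) (hx : ∀ k, 0 ≤ x k) (y : X) (hy : ∀ n, ∑ k ∈ Finset.range n, x k ≤ y) :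
    ∃ T : BoundedContinuousFunction ℕ ℝ →L[ℝ] X,
      ∀ a : BoundedContinuousFunction ℕ ℝ, (∀ k, 0 ≤ a k) →
        IsLUB (Set.range (psum x a)) (T a) := by
  classical
  -- the supremum functional on bounded nonnegative sequences
  have hex : ∀ a : ℕ → ℝ, ∃ s : X, (∀ k, 0 ≤ a k) → (∃ C, ∀ k, a k ≤ C) →
      IsLUB (Set.range (psum x a)) s := by
    intro a
    by_cases ha : (∀ k, 0 ≤ a k) ∧ (∃ C, ∀ k, a k ≤ C)
    · obtain ⟨ha0, C, hC⟩ := ha
      have hC0 : 0 ≤ C := (ha0 0).trans (hC 0)
      obtain ⟨s, hs⟩ := hS (psum x a) (psum_mono hx ha0)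
        ⟨C • y, by rintro _ ⟨n, rfl⟩; exact psum_le hx hC0 hC hy n⟩
      exact ⟨s, fun _ _ => hs⟩
    · refine ⟨0, fun h1 h2 => absurd ⟨h1, h2⟩ ha⟩
  choose τ hτ using hex
  -- bounded nonnegative sequences
  let P : (ℕ → ℝ) → Prop := fun a => (∀ k, 0 ≤ a k) ∧ (∃ C, ∀ k, a k ≤ C)
  have hτ' : ∀ a, P a → IsLUB (Set.range (psum x a)) (τ a) := fun a ha => hτ a ha.1 ha.2
  have hPadd : ∀ a b, P a → P b → P (a + b) := by
    rintro a b ⟨ha, C, hC⟩ ⟨hb, D, hD⟩
    exact ⟨fun k => add_nonneg (ha k) (hb k), C + D, fun k => add_le_add (hC k) (hD k)⟩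
  have hτadd : ∀ a b, P a → P b → τ (a + b) = τ a + τ b := by
    intro a b ha hb
    have h1 := isLUB_add (psum_mono hx ha.1) (psum_mono hx hb.1) (hτ' a ha) (hτ' b hb)
    have h2 := hτ' _ (hPadd a b ha hb)
    have h3 : (fun n => psum x a n + psum x b n) = psum x (a + b) := by
      funext n
      simp only [psum, Pi.add_apply, add_smul, Finset.sum_add_distrib]
    rw [h3] at h1
    exact h2.unique h1
  have hPsmul : ∀ (c : ℝ) a, 0 ≤ c → P a → P (c • a) := by
    rintro c a hc ⟨ha, C, hC⟩
    exact ⟨fun k => mul_nonneg hc (ha k), c * C, fun k => mul_le_mul_of_nonneg_left (hC k) hc⟩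
  have hτsmul : ∀ (c : ℝ) a, 0 ≤ c → P a → τ (c • a) = c • τ a := by
    intro c a hc ha
    rcases hc.eq_or_lt with rfl | hc'
    · rw [zero_smul, zero_smul]
      have h1 := hτ' 0 ⟨fun _ => le_rfl, 0, fun _ => le_rfl⟩
      have h2 : psum x (0 : ℕ → ℝ) = fun _ => 0 := by
        funext n; simp [psum]
      rw [h2, Set.range_const] at h1
      exact h1.unique isLUB_singleton
    · have h1 := hτ' _ (hPsmul c a hc ha)
      have h2 : psum x (c • a) = fun n => c • psum x a n := by
        funext n
        simp only [psum, Pi.smul_apply, smul_eq_mul, mul_smul, Finset.smul_sum]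
      rw [h2] at h1
      refine h1.unique ⟨?_, ?_⟩
      · rintro _ ⟨n, rfl⟩
        exact smul_le_smul_of_nonneg_left ((hτ' a ha).1 ⟨n, rfl⟩) hc
      · intro u hu
        have h3 : τ a ≤ c⁻¹ • u := by
          refine (hτ' a ha).2 ?_
          rintro _ ⟨n, rfl⟩
          have h4 : c • psum x a n ≤ u := hu ⟨n, rfl⟩
          have h5 := smul_le_smul_of_nonneg_left h4 (inv_nonneg.2 hc)
          rwa [smul_smul, inv_mul_cancel₀ hc'.ne', one_smul] at h5
        have h6 := smul_le_smul_of_nonneg_left h3 hc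
        rwa [smul_smul, mul_inv_cancel₀ hc'.ne', one_smul] at h6
  have hτnn : ∀ a, P a → 0 ≤ τ a := by
    intro a ha
    have h1 := (hτ' a ha).1 ⟨0, rfl⟩
    simpa [psum] using h1
  have hτle : ∀ a, P a → ∀ C, 0 ≤ C → (∀ k, a k ≤ C) → τ a ≤ C • y := by
    intro a ha C hC haC
    refine (hτ' a ha).2 ?_
    rintro _ ⟨n, rfl⟩
    exact psum_le hx hC haC hy n
  -- positive and negative parts
  let pp : (BoundedContinuousFunction ℕ ℝ) → ℕ → ℝ := fun a k => max (a k) 0
  let np : (BoundedContinuousFunction ℕ ℝ) → ℕ → ℝ := fun a k => max (-a k) 0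
  have habs : ∀ (a : BoundedContinuousFunction ℕ ℝ) k, |a k| ≤ ‖a‖ := fun a k => by
    simpa using a.norm_coe_le_norm k
  have hpple : ∀ a k, pp a k ≤ ‖a‖ := fun a k =>
    max_le ((le_abs_self _).trans (habs a k)) (norm_nonneg _)
  have hnple : ∀ a k, np a k ≤ ‖a‖ := fun a k =>
    max_le ((neg_le_abs _).trans (habs a k)) (norm_nonneg _)
  have hPpp : ∀ a, P (pp a) := fun a => ⟨fun k => le_max_right _ _, ‖a‖, hpple a⟩
  have hPnp : ∀ a, P (np a) := fun a => ⟨fun k => le_max_right _ _, ‖a‖, hnple a⟩
  let T0 : BoundedContinuousFunction ℕ ℝ →ₗ[ℝ] X :=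
    { toFun := fun a => τ (pp a) - τ (np a)
      map_add' := by
        intro a b
        have h1 : pp (a + b) + (np a + np b) = np (a + b) + (pp a + pp b) := by
          funext k
          simp only [pp, np, Pi.add_apply, BoundedContinuousFunction.coe_add]
          have key : ∀ r : ℝ, max r 0 - max (-r) 0 = r := by
            intro r
            rcases le_total r 0 with h | h
            · rw [max_eq_right h, max_eq_left (by linarith)]; ring
            · rw [max_eq_left h, max_eq_right (by linarith)]; ring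
          have k1 := key (a k)
          have k2 := key (b k)
          have k3 := key (a k + b k)
          linarith
        have h2 := congrArg τ h1
        rw [hτadd _ _ (hPpp _) (hPadd _ _ (hPnp a) (hPnp b)), hτadd _ _ (hPnp a) (hPnp b),
          hτadd _ _ (hPnp _) (hPadd _ _ (hPpp a) (hPpp b)), hτadd _ _ (hPpp a) (hPpp b)] at h2
        have h3 : τ (pp (a + b)) - τ (np (a + b)) = (τ (pp a) + τ (pp b)) - (τ (np a) + τ (np b)) := by
          rw [sub_eq_sub_iff_add_eq_add, h2, add_comm]
        rw [h3]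
        abel
      map_smul' := by
        intro c a
        simp only [RingHom.id_apply]
        rcases le_total 0 c with hc | hc
        · have h1 : pp (c • a) = c • pp a := by
            funext k
            simp only [pp, Pi.smul_apply, smul_eq_mul, BoundedContinuousFunction.coe_smul]
            rw [mul_max_of_nonneg _ _ hc, mul_zero]
          have h2 : np (c • a) = c • np a := by
            funext k
            simp only [np, Pi.smul_apply, smul_eq_mul, BoundedContinuousFunction.coe_smul]
            rw [mul_max_of_nonneg _ _ hc, mul_zero, mul_neg]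
          rw [h1, h2, hτsmul c _ hc (hPpp a), hτsmul c _ hc (hPnp a), smul_sub]
        · have hc' : 0 ≤ -c := by linarith
          have h1 : pp (c • a) = (-c) • np a := by
            funext k
            simp only [pp, np, Pi.smul_apply, smul_eq_mul, BoundedContinuousFunction.coe_smul]
            rw [mul_max_of_nonneg _ _ hc', mul_zero, neg_mul_neg]
          have h2 : np (c • a) = (-c) • pp a := by
            funext k
            simp only [pp, np, Pi.smul_apply, smul_eq_mul, BoundedContinuousFunction.coe_smul]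
            rw [mul_max_of_nonneg _ _ hc', mul_zero, neg_mul]
          rw [h1, h2, hτsmul _ _ hc' (hPpp a), hτsmul _ _ hc' (hPnp a), neg_smul, neg_smul, smul_sub]
          abel }
  have hT0 : ∀ a, T0 a = τ (pp a) - τ (np a) := fun _ => rfl
  have hub : ∀ a, T0 a ≤ ‖a‖ • y := by
    intro a
    rw [hT0]
    exact (sub_le_self _ (hτnn _ (hPnp a))).trans
      (hτle _ (hPpp a) _ (norm_nonneg _) (hpple a))
  have hlb : ∀ a, -(‖a‖ • y) ≤ T0 a := by
    intro a
    have := hub (-a)
    rw [map_neg, norm_neg] at this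
    rw [neg_le]
    exact this
  have hcont : Continuous T0 := by
    refine T0.continuous_of_seq_closed_graph ?_
    intro u a z hu hz
    have h1 : Tendsto (fun n => ‖u n - a‖ • y) atTop (𝓝 0) := by
      have h2 : Tendsto (fun n => ‖u n - a‖) atTop (𝓝 0) := by
        have := (hu.sub_const a).norm
        simpa using this
      have h3 := h2.smul_const y
      simpa using h3
    have h4 : Tendsto (fun n => T0 (u n - a)) atTop (𝓝 (z - T0 a)) := by
      have h5 : (fun n => T0 (u n - a)) = fun n => (T0 ∘ u) n - T0 a := by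
        funext n; simp
      rw [h5]
      exact hz.sub_const _
    have h6 : 0 ≤ z - T0 a := by
      have h7 : Tendsto (fun n => T0 (u n - a) + ‖u n - a‖ • y) atTop (𝓝 (z - T0 a + 0)) :=
        h4.add h1
      rw [add_zero] at h7
      refine hclosed.mem_of_tendsto h7 (Eventually.of_forall fun n => ?_)
      have := hlb (u n - a)
      show 0 ≤ _
      rwa [neg_le_iff_add_nonneg] at this
    have h8 : 0 ≤ -(z - T0 a) := by
      have h9 : Tendsto (fun n => ‖u n - a‖ • y - T0 (u n - a)) atTop (𝓝 (0 - (z - T0 a))) :=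
        h1.sub h4
      rw [zero_sub] at h9
      refine hclosed.mem_of_tendsto h9 (Eventually.of_forall fun n => ?_)
      have := hub (u n - a)
      show 0 ≤ _
      rwa [sub_nonneg]
    have h10 : z - T0 a = 0 := le_antisymm (neg_nonneg.1 h8) h6
    exact sub_eq_zero.1 h10
  refine ⟨⟨T0, hcont⟩, ?_⟩
  intro a ha
  have h1 : pp a = a := by
    funext k; exact max_eq_left (ha k)
  have h2 : np a = 0 := by
    funext k; exact max_eq_right (by have := ha k; linarith)
  have h3 : τ 0 = 0 := by
    have := hτsmul 0 0 le_rfl ⟨fun _ => le_rfl, 0, fun _ => le_rfl⟩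
    simpa using this
  show IsLUB (Set.range (psum x a)) (T0 a)
  rw [hT0, h1, h2, h3, sub_zero]
  have := hPpp a
  rw [h1] at this
  exact hτ' _ this

/-- The indicator function of a set, as a bounded sequence. -/
noncomputable def ind (A : Set ℕ) : BoundedContinuousFunction ℕ ℝ :=
  BoundedContinuousFunction.ofNormedAddCommGroupDiscrete (A.indicator (fun _ => (1:ℝ))) 1 (by
    intro n
    by_cases h : n ∈ A
    · simp [h]
    · simp [h])

theorem ind_apply (A : Set ℕ) (n : ℕ) : ind A n = A.indicator (fun _ => (1:ℝ)) n := rfl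

theorem ind_nonneg (A : Set ℕ) (n : ℕ) : 0 ≤ ind A n := by
  rw [ind_apply]
  exact Set.indicator_nonneg (fun _ _ => zero_le_one) n

theorem norm_ind_le (A : Set ℕ) : ‖ind A‖ ≤ 1 := by
  refine (BoundedContinuousFunction.norm_le zero_le_one).2 fun n => ?_
  rw [ind_apply]
  by_cases h : n ∈ A
  · simp [h]
  · simp [h]

omit [IsOrderedAddMonoid X] [PosSMulMono ℝ X] in
theorem orderSum_single {x : ℕ → X} (hx : ∀ k, 0 ≤ x k)
    (T : BoundedContinuousFunction ℕ ℝ →L[ℝ] X)
    (hT : ∀ a : BoundedContinuousFunction ℕ ℝ, (∀ k, 0 ≤ a k) →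
        IsLUB (Set.range (psum x a)) (T a)) (k : ℕ) : T (ind {k}) = x k := by
  have h1 := hT (ind {k}) (ind_nonneg _)
  refine h1.unique ⟨?_, ?_⟩
  · rintro _ ⟨n, rfl⟩
    have h2 : psum x (ind {k}) n = if k ∈ Finset.range n then x k else 0 := by
      rw [psum]
      rw [← Finset.sum_ite_eq' (Finset.range n) k x]
      refine Finset.sum_congr rfl fun j _ => ?_
      rw [ind_apply]
      by_cases hj : j = k
      · simp [hj]
      · simp [hj]
    rw [h2]
    split_ifs
    · exact le_rfl
    · exact hx k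
  · intro u hu
    have h2 := hu ⟨k + 1, rfl⟩
    have h3 : psum x (ind {k}) (k + 1) = x k := by
      rw [psum, Finset.sum_eq_single k]
      · simp [ind_apply]
      · intro j _ hj
        simp [ind_apply, hj]
      · intro h
        exact absurd (Finset.mem_range.2 (Nat.lt_succ_self k)) h
    rwa [h3] at h2

end Pool.Agent.Helper24
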