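import Pool.Agent.Helper62.HoveyT.Opn

/-!
# Linear topologies on artinian-by-finitely-generated modules (packet TOPA)
-/

universe v

namespace Pool.Agent.Helper24.TopA

open Pool.Agent.Helper62.Hovey

variable {A : Type v} [CommRing A]

/-- (F) -/
theorem exists_fg {M : Type v} [AddCommGroup M] [Module A M] (h : AF A M) :
    ∃ N : Submodule A M, N.FG ∧ IsArtinian A (M ⧸ N) := by
  classical
  obtain ⟨Γ, hΓ, hfin⟩ := h
  obtain ⟨s, hs⟩ := hfin.fg_top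
  choose g hg using Submodule.Quotient.mk_surjective Γ
  refine ⟨Submodule.span A (s.image g : Finset M), ⟨s.image g, rfl⟩, ?_⟩
  set N : Submodule A M := Submodule.span A (s.image g : Finset M) with hN
  have hmap : N.map Γ.mkQ = ⊤ := by
    rw [hN, Submodule.map_span, ← hs]
    congr 1
    ext y
    simp only [Finset.coe_image, Set.mem_image, Finset.mem_coe]
    constructor
    · rintro ⟨x, ⟨z, hz, rfl⟩, rfl⟩
      have : Γ.mkQ (g z) = z := hg z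
      rw [this]
      exact hz
    · intro hy
      exact ⟨g y, ⟨y, hy, rfl⟩, hg y⟩
  have hsup : Γ ⊔ N = ⊤ := by
    rw [eq_top_iff]
    intro x _
    have hx : Γ.mkQ x ∈ N.map Γ.mkQ := by
      rw [hmap]
      exact Submodule.mem_top
    obtain ⟨n, hn, hnx⟩ := hx
    have hd : x - n ∈ Γ := by
      have h0 : Γ.mkQ (x - n) = 0 := by
        rw [map_sub, hnx, sub_self]
      exact (Submodule.Quotient.mk_eq_zero Γ).mp h0
    have : x = (x - n) + n := by abel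
    rw [this]
    exact Submodule.add_mem_sup hd hn
  haveI := hΓ
  refine isArtinian_of_surjective Γ (N.mkQ.comp Γ.subtype) ?_
  intro y
  obtain ⟨x, rfl⟩ := Submodule.Quotient.mk_surjective N y
  have hx : x ∈ Γ ⊔ N := by
    rw [hsup]
    exact Submodule.mem_top
  obtain ⟨c, hc, n, hn, rfl⟩ := Submodule.mem_sup.mp hx
  refine ⟨⟨c, hc⟩, ?_⟩
  show N.mkQ c = N.mkQ (c + n)
  rw [map_add]
  have : N.mkQ n = 0 := (Submodule.Quotient.mk_eq_zero N).mpr hn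
  rw [this, add_zero]

variable [IsNoetherianRing A] {𝔞 : Ideal A}

/-- (K) -/
theorem exists_pow_eq_bot (h𝔞 : 𝔞 ≤ (⊥ : Ideal A).jacobson) {L : Type v} [AddCommGroup L] [Module A L]
    (hf : Module.Finite A L) (ha : IsArtinian A L) :
    ∃ j : ℕ, 𝔞 ^ j • (⊤ : Submodule A L) = ⊥ := by
  let f : ℕ →o (Submodule A L)ᵒᵈ :=
    ⟨fun j => OrderDual.toDual (𝔞 ^ j • (⊤ : Submodule A L)), fun i j hij =>
      OrderDual.toDual_le_toDual.mpr (Submodule.smul_mono (Ideal.pow_le_pow_right hij) le_rfl)⟩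
  obtain ⟨n, hn⟩ := IsArtinian.monotone_stabilizes f
  refine ⟨n, ?_⟩
  have h1 : 𝔞 ^ n • (⊤ : Submodule A L) = 𝔞 ^ (n + 1) • (⊤ : Submodule A L) := hn (n + 1) (Nat.le_succ n)
  haveI : IsNoetherian A L := isNoetherian_of_isNoetherianRing_of_finite A L
  refine Submodule.eq_bot_of_le_smul_of_le_jacobson_bot 𝔞 _ (IsNoetherian.noetherian _) ?_ h𝔞
  rw [← Submodule.mul_smul, ← pow_succ', ← h1]

/-- (C) -/
theorem exists_pow_smul_le (h𝔞 : 𝔞 ≤ (⊥ : Ideal A).jacobson) {M : Type v} [AddCommGroup M] [Module A M]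
    {L P : Submodule A M} (hL : L.FG) (hLP : IsArtinian A (L.map P.mkQ)) :
    ∃ j : ℕ, 𝔞 ^ j • L ≤ P := by
  have hfg : (L.map P.mkQ).FG := hL.map _
  obtain ⟨j, hj⟩ := exists_pow_eq_bot (𝔞 := 𝔞) h𝔞 (Module.Finite.iff_fg.mpr hfg) hLP
  refine ⟨j, ?_⟩
  have h1 : 𝔞 ^ j • (L.map P.mkQ) = ⊥ := by
    have h2 := congrArg (Submodule.map (L.map P.mkQ).subtype) hj
    rw [Submodule.map_smul'', Submodule.map_top, Submodule.range_subtype, Submodule.map_bot] at h2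
    exact h2
  rw [← Submodule.map_smul''] at h1
  intro x hx
  have h3 : P.mkQ x ∈ (𝔞 ^ j • L).map P.mkQ := ⟨x, hx, rfl⟩
  rw [h1, Submodule.mem_bot] at h3
  exact (Submodule.Quotient.mk_eq_zero P).mp h3

theorem exists_pow_smul_le' (h𝔞 : 𝔞 ≤ (⊥ : Ideal A).jacobson) {M : Type v} [AddCommGroup M] [Module A M]
    {L P : Submodule A M} (hL : L.FG) (hP : IsArtinian A (M ⧸ P)) :
    ∃ j : ℕ, 𝔞 ^ j • L ≤ P :=
  exists_pow_smul_le h𝔞 hL (isArtinian_of_injective (L.map P.mkQ).subtype Subtype.val_injective)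

end Pool.Agent.Helper24.TopA

namespace Pool.Agent.Helper62.Hovey

open Pool.Agent.Helper24.TopA

variable {A : Type v} [CommRing A] [IsNoetherianRing A] {𝔞 : Ideal A}
  {M₁ M₂ : Type v} [AddCommGroup M₁] [Module A M₁] [AddCommGroup M₂] [Module A M₂]

/-- PACKET TOPA, 1 -/
theorem opn_top (h : AF A M₁) : ⊤ ∈ Opn 𝔞 M₁ := by
  obtain ⟨N, hN, hA⟩ := exists_fg h
  exact ⟨N, hN, hA, 0, le_top⟩

/-- PACKET TOPA, 2 -/
theorem opn_inf {U V : Submodule A M₁} (hU : U ∈ Opn 𝔞 M₁) (hV : V ∈ Opn 𝔞 M₁) : U ⊓ V ∈ Opn 𝔞 M₁ := by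
  obtain ⟨N, hN, hNA, k, hk⟩ := hU
  obtain ⟨N', hN', hNA', l, hl⟩ := hV
  refine ⟨N ⊓ N', hN.of_le inf_le_left, ?_, k + l, ?_⟩
  · haveI := hNA
    haveI := hNA'
    have hker : LinearMap.ker (N.mkQ.prod N'.mkQ) = N ⊓ N' := by
      rw [LinearMap.ker_prod, Submodule.ker_mkQ, Submodule.ker_mkQ]
    refine isArtinian_of_injective ((N ⊓ N').liftQ (N.mkQ.prod N'.mkQ) hker.ge) ?_
    rw [← LinearMap.ker_eq_bot]
    exact Submodule.ker_liftQ_eq_bot _ _ _ hker.le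
  · refine le_inf ?_ ?_
    · exact le_trans (Submodule.smul_mono (Ideal.pow_le_pow_right (Nat.le_add_right k l)) inf_le_left) hk
    · exact le_trans (Submodule.smul_mono (Ideal.pow_le_pow_right (Nat.le_add_left l k)) inf_le_right) hl

/-- PACKET TOPA, 3 -/
theorem opn_comap (h𝔞 : 𝔞 ≤ (⊥ : Ideal A).jacobson) (h₁ : AF A M₁) (h : M₁ →ₗ[A] M₂) {U : Submodule A M₂}
    (hU : U ∈ Opn 𝔞 M₂) : U.comap h ∈ Opn 𝔞 M₁ := by
  obtain ⟨N₂, hN₂, hNA₂, k, hk⟩ := hU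
  obtain ⟨N₁, hN₁, hNA₁⟩ := exists_fg h₁
  obtain ⟨j, hj⟩ := exists_pow_smul_le' (𝔞 := 𝔞) h𝔞 (hN₁.map h) hNA₂
  refine ⟨N₁, hN₁, hNA₁, k + j, ?_⟩
  rw [← Submodule.map_le_iff_le_comap, Submodule.map_smul'', pow_add, Submodule.mul_smul]
  exact le_trans (Submodule.smul_mono le_rfl hj) hk

/-- PACKET TOPA, 4 -/
theorem opn_strict (h𝔞 : 𝔞 ≤ (⊥ : Ideal A).jacobson) (h₁ : AF A M₁) (h₂ : AF A M₂) (h : M₁ →ₗ[A] M₂)
    {U : Submodule A M₁} (hU : U ∈ Opn 𝔞 M₁) : ∃ V ∈ Opn 𝔞 M₂, V ⊓ LinearMap.range h ≤ U.map h := by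
  obtain ⟨N₁, hN₁, hNA₁, k, hk⟩ := hU
  obtain ⟨N₂, hN₂, hNA₂⟩ := exists_fg h₂
  set N : Submodule A M₂ := N₂ ⊔ N₁.map h with hNdef
  have hN : N.FG := hN₂.sup (hN₁.map h)
  have hNA : IsArtinian A (M₂ ⧸ N) := by
    haveI := hNA₂
    refine isArtinian_of_surjective (M₂ ⧸ N₂) (N₂.liftQ N.mkQ ?_) ?_
    · rw [Submodule.ker_mkQ]
      exact le_sup_left
    · intro y
      obtain ⟨x, rfl⟩ := Submodule.Quotient.mk_surjective N y
      exact ⟨N₂.mkQ x, rfl⟩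
  set L : Submodule A M₂ := LinearMap.range h ⊓ N with hLdef
  have hL : L.FG := hN.of_le inf_le_right
  -- `𝔞 ^ j • L ≤ h(N₁)`
  have hj : ∃ j : ℕ, 𝔞 ^ j • L ≤ N₁.map h := by
    refine exists_pow_smul_le h𝔞 hL ?_
    haveI := hNA₁
    have hle : N₁ ≤ LinearMap.ker ((N₁.map h).mkQ.comp h) := by
      intro x hx
      rw [LinearMap.mem_ker]
      exact (Submodule.Quotient.mk_eq_zero (N₁.map h)).mpr ⟨x, hx, rfl⟩
    let F : (M₁ ⧸ N₁) →ₗ[A] (M₂ ⧸ N₁.map h) := N₁.liftQ ((N₁.map h).mkQ.comp h) hle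
    haveI : IsArtinian A (LinearMap.range F) := isArtinian_range F
    refine isArtinian_of_le (t := LinearMap.range F) ?_
    rintro _ ⟨y, ⟨⟨x, rfl⟩, -⟩, rfl⟩
    exact ⟨N₁.mkQ x, rfl⟩
  obtain ⟨j, hj⟩ := hj
  -- Artin-Rees
  haveI : Module.Finite A N := Module.Finite.iff_fg.mpr hN
  obtain ⟨c, hc⟩ := 𝔞.exists_pow_inf_eq_pow_smul (L.comap N.subtype)
  refine ⟨𝔞 ^ (k + c + j) • N, ⟨N, hN, hNA, k + c + j, le_rfl⟩, ?_⟩
  have h1 := hc (k + c + j) (by omega)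
  have e1 : k + c + j - c = k + j := by omega
  rw [e1] at h1
  rintro x ⟨hx1, hx2⟩
  have hxN : x ∈ N := Submodule.smul_le_right hx1
  have hx3 : (⟨x, hxN⟩ : N) ∈ 𝔞 ^ (k + c + j) • (⊤ : Submodule A N) := by
    have e2 : (𝔞 ^ (k + c + j) • (⊤ : Submodule A N)).map N.subtype = 𝔞 ^ (k + c + j) • N := by
      rw [Submodule.map_smul'', Submodule.map_top, Submodule.range_subtype]
    have hx4 : x ∈ (𝔞 ^ (k + c + j) • (⊤ : Submodule A N)).map N.subtype := by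
      rw [e2]
      exact hx1
    obtain ⟨y, hy, hyx⟩ := hx4
    have : y = ⟨x, hxN⟩ := Subtype.ext hyx
    rwa [← this]
  have hx5 : (⟨x, hxN⟩ : N) ∈ 𝔞 ^ (k + j) • (𝔞 ^ c • (⊤ : Submodule A N) ⊓ L.comap N.subtype) := by
    rw [← h1]
    exact ⟨hx3, hx2, hxN⟩
  have hx6 : (⟨x, hxN⟩ : N) ∈ 𝔞 ^ (k + j) • (L.comap N.subtype) :=
    Submodule.smul_mono le_rfl inf_le_right hx5
  have hx7 : x ∈ 𝔞 ^ (k + j) • L := by
    have hx8 : x ∈ (𝔞 ^ (k + j) • (L.comap N.subtype)).map N.subtype := ⟨_, hx6, rfl⟩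
    rw [Submodule.map_smul''] at hx8
    exact Submodule.smul_mono le_rfl (Submodule.map_comap_le _ _) hx8
  rw [pow_add, Submodule.mul_smul] at hx7
  have hx9 : x ∈ 𝔞 ^ k • (N₁.map h) := Submodule.smul_mono le_rfl hj hx7
  rw [← Submodule.map_smul''] at hx9
  exact Submodule.map_mono hk hx9

end Pool.Agent.Helper62.Hovey
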